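import Pool.Agent.Helper72.RA.Defs2

set_option autoImplicit false

/-!
# MP_717de3_co, module SCALE
-/

namespace Pool.Agent.Helper72.RA

open Real Finset MeasureTheory Filter

open scoped Classical

theorem scale_qi_pos {q : ℕ} (hq : 0 < q) (k : ℕ) : 0 < qi q k := by
  have : (0 : ℝ) < q := by exact_mod_cast hq
  exact inv_pos.2 (pow_pos this k)

theorem scale_qi_mul {q : ℕ} (hq : 0 < q) (a b : ℕ) : (q : ℝ) ^ b * qi q (a + b) = qi q a := by
  have : (0 : ℝ) < q := by exact_mod_cast hq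
  rw [qi, qi, pow_add, mul_inv, mul_comm ((q : ℝ) ^ a)⁻¹, ← mul_assoc,
    mul_inv_cancel₀ (pow_pos this b).ne', one_mul]

theorem scale_qi_half {q : ℕ} (hq : 2 ≤ q) {a b : ℕ} (h : a < b) : 2 * qi q b ≤ qi q a := by
  obtain ⟨c, rfl⟩ := Nat.exists_eq_add_of_lt h
  have h2 : (2 : ℝ) ≤ q := by exact_mod_cast hq
  rw [← scale_qi_mul (by omega) a (c + 1)]
  refine mul_le_mul_of_nonneg_right ?_ (scale_qi_pos (by omega) _).le
  calc (2 : ℝ) ≤ q ^ 1 := by rw [pow_one]; exact h2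
    _ ≤ q ^ (c + 1) := pow_le_pow_right₀ (by linarith) (by omega)

theorem scale_qi_le_one {q : ℕ} (hq : 1 ≤ q) (a : ℕ) : qi q a ≤ 1 := by
  have h2 : (1 : ℝ) ≤ q := by exact_mod_cast hq
  exact inv_le_one_of_one_le₀ (one_le_pow₀ h2)

theorem scale_qi_inv (q k : ℕ) : (qi q k)⁻¹ = (q : ℝ) ^ k := by rw [qi, inv_inv]

/-- `sin β ≥ 2/5` on `[.45, 2.7]` -/
theorem scale_sin {β : ℝ} (h1 : 45 / 100 ≤ β) (h2 : β ≤ 27 / 10) : 2 / 5 ≤ sin β := by
  have key : ∀ x : ℝ, 42 / 100 ≤ x → x ≤ π / 2 → 2 / 5 ≤ sin x := by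
    intro x hx hx2
    have e1 : sin (42 / 100) ≤ sin x :=
      sin_le_sin_of_le_of_le_pi_div_two (by linarith [pi_pos]) hx2 hx
    have e2 := sin_gt_sub_cube (x := 42 / 100) (by norm_num)
    norm_num at e2
    norm_num at e1
    linarith
  rcases le_total β (π / 2) with h | h
  · exact key β (by linarith) h
  · rw [← sin_pi_sub]
    exact key _ (by linarith [pi_gt_d2]) (by linarith)

/-- existence of the data of one interval for an active vertex of kind `xp` -/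
theorem scale_xp {q : ℕ} (hq : 10 ^ 9 ≤ q)
    (hX : ∀ b ps ε1 ε α : ℝ, (q : ℝ) ^ 1967 ≤ b → (q : ℝ) ^ 999 ≤ ps →
    ps ≤ (q : ℝ) ^ 1001 → qi q 2005 ≤ ε1 → ε1 ≤ ε → ε ≤ top q → 49 / 100 ≤ α →
    α ≤ 101 / 100 →
    ∃ ρ0 : ℝ, 0 < ρ0 ∧ ρ0 ≤ qi q 300 ∧ ∀ ρ : ℝ, ρ0 ≤ ρ → ρ ≤ ρ0 + qi q 1338 →
      |(ps + b) ^ 2 * (ρ * sin α) ^ 2 + (b - ρ * cos α) ^ 2 * (ps * tan ε1) ^ 2 +
          (ps * tan ε1) ^ 2 * (ρ * sin α) ^ 2 -
          tan ε ^ 2 * ((ρ * cos α + ps) * (b - ρ * cos α) - (ρ * sin α) ^ 2) ^ 2| ≤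
        (ps + b) * (b - ρ * cos α) * (ps * tan ε1) * (ρ * sin α) * qi q 330)
    (hC : ST_CPSOLVE) (htop : top q ≤ qi q 1350 / 2) {b ρs θs θt α : ℝ}
    (hb : (q : ℝ) ^ 1967 ≤ b) (hρ1 : (q : ℝ) ^ 1000 ≤ ρs) (hρ2 : ρs ≤ 2 * (q : ℝ) ^ 1000)
    (hs1 : π - qi q 1969 ≤ θs) (hs2 : θs < π - qi q 2005) (hts : θt ≤ θs)
    (ht : π - top q < θt) (ha1 : 49 / 100 ≤ α) (ha2 : α ≤ 101 / 100) :
    ∃ ρ0 : ℝ, 0 < ρ0 ∧ ρ0 ≤ 1 / 2 ∧ ∀ ρ : ℝ, ρ0 ≤ ρ → ρ ≤ ρ0 + qi q 1338 →
      ∃ ns : ℝ, |ns| ≤ qi q 330 ∧ CP (ρ * cos α - ρs * cos θs) (b - ρ * cos α) (ρs * sin θs)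
        (ρ * sin α) ns (π - θt) := by
  have hq0 : 0 < q := by omega
  have hq2 : 2 ≤ q := by omega
  have hqr : (2 : ℝ) ≤ q := by exact_mod_cast hq2
  have hQ1 : (1 : ℝ) ≤ (q : ℝ) ^ 1000 := one_le_pow₀ (by linarith)
  -- the angle at the special vertex
  have he1 : qi q 2005 ≤ π - θs := by linarith
  have he1' : π - θs ≤ qi q 1969 := by linarith
  have h1969 : 2 * qi q 1969 ≤ 1 := by
    have := scale_qi_half hq2 (show 0 < 1969 by norm_num)
    rwa [show qi q 0 = 1 by simp [qi]] at this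
  have h2005 := scale_qi_pos hq0 2005
  have h0 : 0 < π - θs := by linarith
  have hcos : 1 / 2 ≤ cos (π - θs) := by
    have := one_sub_sq_div_two_le_cos (x := π - θs)
    nlinarith
  have hcos1 : cos (π - θs) ≤ 1 := cos_le_one _
  set ps : ℝ := ρs * cos (π - θs) with hps
  have hρ0 : 0 < ρs := by linarith
  have hps1 : (q : ℝ) ^ 999 ≤ ps := by
    have e1 : (2 : ℝ) * (q : ℝ) ^ 999 ≤ (q : ℝ) ^ 1000 := by
      rw [pow_succ (q : ℝ) 999, mul_comm]
      exact mul_le_mul_of_nonneg_left hqr (by positivity)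
    have e2 : ρs * (1 / 2) ≤ ps := mul_le_mul_of_nonneg_left hcos hρ0.le
    linarith
  have hps2 : ps ≤ (q : ℝ) ^ 1001 := by
    have e1 : (2 : ℝ) * (q : ℝ) ^ 1000 ≤ (q : ℝ) ^ 1001 := by
      rw [pow_succ (q : ℝ) 1000, mul_comm]
      exact mul_le_mul_of_nonneg_left hqr (by positivity)
    have e2 : ps ≤ ρs * 1 := mul_le_mul_of_nonneg_left hcos1 hρ0.le
    linarith
  obtain ⟨ρ0, p1, p2, p3⟩ := hX b ps (π - θs) (π - θt) α hb hps1 hps2 he1 (by linarith)
    (by linarith) ha1 ha2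
  have h300 : 2 * qi q 300 ≤ 1 := by
    have := scale_qi_half hq2 (show 0 < 300 by norm_num)
    rwa [show qi q 0 = 1 by simp [qi]] at this
  have h1338 : 2 * qi q 1338 ≤ 1 := by
    have := scale_qi_half hq2 (show 0 < 1338 by norm_num)
    rwa [show qi q 0 = 1 by simp [qi]] at this
  have h330 : 2 * qi q 330 ≤ 1 := by
    have := scale_qi_half hq2 (show 0 < 330 by norm_num)
    rwa [show qi q 0 = 1 by simp [qi]] at this
  have h1350 : qi q 1350 ≤ 1 := scale_qi_le_one (by omega) _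
  refine ⟨ρ0, p1, by linarith, fun ρ hρa hρb => ?_⟩
  have hpi := pi_gt_three
  have hca : 0 < cos α := cos_pos_of_mem_Ioo ⟨by linarith, by linarith⟩
  have hsa : 0 < sin α := sin_pos_of_pos_of_lt_pi (by linarith) (by linarith)
  have hρp : 0 < ρ := by linarith
  have hρ1' : ρ ≤ 1 := by linarith
  have hy : 0 < ρ * sin α := mul_pos hρp hsa
  have hy1 : ρ * sin α ≤ 1 := by nlinarith [sin_le_one α]
  have hz : 0 < ρ * cos α := mul_pos hρp hca
  have hz1 : ρ * cos α ≤ 1 := by nlinarith [cos_le_one α]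
  have hsin : 0 < sin (π - θs) := sin_pos_of_pos_of_lt_pi h0 (by linarith)
  have hx : ps * tan (π - θs) = ρs * sin (π - θs) := by
    rw [hps, tan_eq_sin_div_cos]
    field_simp
  have hx0 : 0 < ρs * sin (π - θs) := mul_pos hρ0 hsin
  have hx1 : ρs * sin (π - θs) ≤ ρs := by nlinarith [sin_le_one (π - θs)]
  have hbig : 4 * (q : ℝ) ^ 1000 ≤ (q : ℝ) ^ 1966 := by
    have e1 : (q : ℝ) ^ 1002 ≤ (q : ℝ) ^ 1966 := pow_le_pow_right₀ (by linarith) (by norm_num)
    have e2 : (q : ℝ) ^ 1002 = (q : ℝ) ^ 1000 * ((q : ℝ) ^ 2) := by rw [← pow_add]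
    have e3 : (4 : ℝ) ≤ (q : ℝ) ^ 2 := by nlinarith
    nlinarith
  have hb1 : (q : ℝ) ^ 1966 + 1 ≤ b := by
    have e1 : (q : ℝ) ^ 1967 = (q : ℝ) ^ 1966 * q := pow_succ _ _
    nlinarith
  have hB : (q : ℝ) ^ 1966 ≤ b - ρ * cos α := by linarith
  have hP : 1 ≤ ρ * cos α + ps := by
    have : (1 : ℝ) ≤ (q : ℝ) ^ 999 := one_le_pow₀ (by linarith)
    linarith
  have hB0 : 1 ≤ b - ρ * cos α := by linarith
  obtain ⟨ν, hν1, hν2⟩ := hC (ρ * cos α + ps) (b - ρ * cos α) (ρs * sin (π - θs)) (ρ * sin α)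
    (π - θt) (qi q 330) (by linarith) (by linarith) hx0 hy (by linarith) (by linarith)
    (scale_qi_pos hq0 _) (by linarith)
    (by
      have e1 : (ρ * sin α) ^ 2 ≤ 1 := pow_le_one₀ hy.le hy1
      have e2 : ρs * sin (π - θs) * (ρ * sin α) ≤ ρs := by nlinarith
      have e3 : b - ρ * cos α ≤ (ρ * cos α + ps) * (b - ρ * cos α) := by nlinarith
      linarith)
    (by
      have e2 : ρs * sin (π - θs) * (ρ * sin α) ≤ ρs := by nlinarith
      have e3 : b - ρ * cos α ≤ (b - ρ * cos α) ^ 2 := by nlinarith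
      linarith)
    (by
      have := p3 ρ hρa hρb
      rw [hx] at this
      have e : ρ * cos α + ps + (b - ρ * cos α) = ps + b := by ring
      rw [e]
      exact this)
  refine ⟨ν, hν1, ?_⟩
  have e1 : ρ * cos α - ρs * cos θs = ρ * cos α + ps := by
    rw [hps, cos_pi_sub]; ring
  have e2 : sin θs = sin (π - θs) := (sin_pi_sub _).symm
  rw [e1, e2]
  exact hν2

/-- the cotangent near `0` -/
theorem scale_cot {q : ℕ} (hq : 10 ^ 9 ≤ q) (htop : top q ≤ qi q 1350 / 2) {t β : ℝ}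
    (ht0 : 0 < t) (ht : t < top q) (hb1 : 21 / 10 ≤ β) (hb2 : β ≤ 27 / 10) :
    (q : ℝ) ^ 1349 ≤ cos β + cos t / sin t * sin β := by
  have hq0 : 0 < q := by omega
  have hqr : (10 ^ 9 : ℝ) ≤ q := by exact_mod_cast hq
  have hx := scale_qi_pos hq0 1350
  have h1 : qi q 1350 ≤ 1 := scale_qi_le_one (by omega) _
  have hsb := scale_sin (β := β) (by linarith) hb2
  have hst : 0 < sin t := sin_pos_of_pos_of_lt_pi ht0 (by linarith [pi_gt_three])
  have hst2 : sin t ≤ t := sin_le ht0.le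
  have hct : 1 / 2 ≤ cos t := by
    have := one_sub_sq_div_two_le_cos (x := t)
    nlinarith
  have h2 : 1 / 2 / (qi q 1350 / 2) ≤ cos t / sin t := by
    rw [div_le_div_iff₀ (by positivity) hst]
    nlinarith
  have h3 : 1 / 2 / (qi q 1350 / 2) = (q : ℝ) ^ 1350 := by
    rw [← scale_qi_inv q 1350]
    field_simp
  rw [h3] at h2
  have h4 : (q : ℝ) ^ 1350 = (q : ℝ) ^ 1349 * q := pow_succ _ _
  have h5 : (1 : ℝ) ≤ (q : ℝ) ^ 1349 := one_le_pow₀ (by linarith)
  have h6 := neg_one_le_cos β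
  have h7 : (q : ℝ) ^ 1350 * (2 / 5) ≤ cos t / sin t * sin β :=
    mul_le_mul h2 hsb (by norm_num) (by positivity)
  rw [h4] at h7
  nlinarith

theorem st_SCALE (hA : ST_ALPHA) (hR : ST_RANGE) (hP : ST_PICK) (hP1 : ST_PICK1)
    (hX : ST_XPROOT) (hC : ST_CPSOLVE) (hL : ST_LEV) : ST_SCALE := by
  filter_upwards [hA, hR, hP, hP1, hX, hL] with q hA hR hP hP1 hX hL m hm1 hm2 D θ hG S ep e0
    hep he0
  obtain ⟨hq9, -, -, -, -, -, -, -, -, -, -, htop, -, -⟩ := hL
  obtain ⟨hal, hbe, hbs, hty, -⟩ := hA m hm1 hm2 D θ hG S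
  have hq0 : 0 < q := by omega
  have hq2 : 2 ≤ q := by omega
  have hqr : (10 ^ 9 : ℝ) ≤ q := by exact_mod_cast hq9
  have hpi3 := pi_gt_three
  have hpi := pi_gt_d2
  have hths : D.ty D.hv = Ty.h0 := (D.ty_h0 _).2 rfl
  have htss : D.ty D.sv = Ty.s := (D.ty_s _).2 rfl
  have hhs : D.hv ≠ D.sv := fun h => by rw [h, htss] at hths; cases hths
  -- (1) the scale of `C`
  have hah := hty D.hv (Or.inl hths)
  obtain ⟨tg, -, tg3, tg1, tg2, tg4, tg5⟩ := hP1 m hm1 hm2 θ hG ∅ (by simp) (S.al D.hv)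
    (qi q 1969) (qi q 1967) (by linarith) (by linarith) (scale_sin (by linarith) (by linarith))
    (scale_qi_pos hq0 _).le (by
      have e1 := scale_qi_half hq2 (show 1967 < 1968 by norm_num)
      have e2 := scale_qi_half hq2 (show 1968 < 1969 by norm_num)
      have e3 := scale_qi_pos hq0 1968
      linarith) (by linarith [scale_qi_le_one (by omega : 1 ≤ q) 1967])
  set cb : ℝ := cos (S.al D.hv) + cos (θ tg) / sin (θ tg) * sin (S.al D.hv) with hcb
  have hcb0 : 0 < cb := lt_of_lt_of_le (scale_qi_pos hq0 _) tg4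
  set b : ℝ := 1 / cb with hb
  have hb1 : (q : ℝ) ^ 1967 ≤ b := by
    rw [← scale_qi_inv q 1967, hb, one_div]
    exact inv_anti₀ hcb0 tg5
  -- (2) the special vertex
  obtain ⟨ts1, ts0, ts3, ts1', ts2, ts4, ts5⟩ := hP1 m hm1 hm2 θ hG {tg} (by simp) (S.be D.sv)
    (qi q 1000 / 2) (qi q 1000) (by linarith) (by linarith)
    (scale_sin (by linarith) (by linarith)) (by linarith [scale_qi_pos hq0 1000]) (by
      have e1 := scale_qi_half hq2 (show 1000 < 1968 by norm_num)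
      linarith) (by linarith [scale_qi_le_one (by omega : 1 ≤ q) 1000])
  have htgs : ts1 ≠ tg := by simpa using ts0
  set cs : ℝ := cos (S.be D.sv) + cos (θ ts1) / sin (θ ts1) * sin (S.be D.sv) with hcs
  have hcs0 : 0 < cs := lt_of_lt_of_le (by linarith [scale_qi_pos hq0 1000]) ts4
  set ρs : ℝ := 1 / cs with hρs
  have hρs0 : 0 < ρs := by positivity
  have hρs1 : (q : ℝ) ^ 1000 ≤ ρs := by
    rw [← scale_qi_inv q 1000, hρs, one_div]
    exact inv_anti₀ hcs0 ts5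
  have hρs2 : ρs ≤ 2 * (q : ℝ) ^ 1000 := by
    have e : 2 * (q : ℝ) ^ 1000 = (qi q 1000 / 2)⁻¹ := by
      rw [← scale_qi_inv q 1000, inv_div]; ring
    rw [e, hρs, one_div]
    exact inv_anti₀ (by linarith [scale_qi_pos hq0 1000]) ts4
  have halsv : S.al D.sv = θ S.ts := by rw [StB.al, if_pos rfl]
  -- (3) the ranges
  have hrgl1 : ∀ k, ¬ (D.ty k = Ty.v ∨ D.ty k = Ty.h ∨ D.ty k = Ty.g) → D.ty k ≠ Ty.xp →
      rgl D k ≤ 1 / 2 := by
    intro k h1 h2
    have e := scale_qi_half hq2 (show 0 < 920 by norm_num)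
    rw [show qi q 0 = 1 by simp [qi]] at e
    rw [rgl, if_neg (fun h => h1 (Or.inl h.1)), if_neg (fun h => h1 (Or.inr (Or.inr h.1))),
      if_neg h2]
    linarith
  have hrgl2 : ∀ k, D.ty k = Ty.xp → rgl D k = qi q 1338 := by
    intro k h1
    rw [rgl, if_neg (fun h => by rw [h1] at h; exact absurd h.1 (by decide)),
      if_neg (fun h => by rw [high, h1] at h; exact absurd h.1 (by decide)), if_pos h1]
  have h1338 : 2 * qi q 1338 ≤ 1 := by
    have := scale_qi_half hq2 (show 0 < 1338 by norm_num)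
    rwa [show qi q 0 = 1 by simp [qi]] at this
  have hk : ∀ k, ∃ β r0 r1 : ℝ, (0 < β ∧ β < π ∧ 2 / 5 ≤ sin β) ∧
      (0 ≤ r0 ∧ r0 + rgl D k ≤ r1 ∧ r1 ≤ 3) ∧ (k ≠ D.hv → k ≠ D.sv → β = S.be k) ∧
      (D.ty k = Ty.v ∨ D.ty k = Ty.h ∨ D.ty k = Ty.g →
        0 < r0 ∧ ∀ ρ : ℝ, 0 < ρ → r0 ≤ 1 / ρ → 1 / ρ ≤ r1 →
          (isF D k ∨ D.ty k = Ty.h → |ρ * cos (S.al k) - D.pos k| ≤ qi q 860 ∧
            |ρ * sin (S.al k) - D.rad k| ≤ qi q 860) ∧
          (D.ty k = Ty.v → D.lev k = 0 → |ρ * cos (S.al k) - 1| ≤ qi q 999 ∧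
            |ρ * sin (S.al k) - D.rad k| ≤ qi q 999) ∧
          (D.ty k = Ty.g → |ρ * cos (S.al k) - D.pos k| ≤ D.pos k / 1000 ∧
            |ρ * sin (S.al k) - D.rad k| ≤ 1 / 500)) ∧
      (∀ t, ep k = some t → ∀ ρ : ℝ, r0 ≤ ρ → ρ ≤ r1 → 0 < ρ ∧ ρ ≤ 1 ∧
        ∃ ns : ℝ, |ns| ≤ qi q 330 ∧
          CP (ρ * cos (S.al k) - ρs * cos (S.al D.sv)) (b - ρ * cos (S.al k))
            (ρs * sin (S.al D.sv)) (ρ * sin (S.al k)) ns (π - θ t)) ∧
      (¬ (D.ty k = Ty.v ∨ D.ty k = Ty.h ∨ D.ty k = Ty.g) → ep k = none →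
        1 / 2 ≤ r0 ∧ r1 ≤ 1) := by
    intro k
    obtain ⟨β, hβ1, hβ2⟩ : ∃ β : ℝ, (0 < β ∧ β < π ∧ 2 / 5 ≤ sin β) ∧
        (k ≠ D.hv → k ≠ D.sv → β = S.be k) := by
      by_cases h : k ≠ D.hv ∧ k ≠ D.sv
      · obtain ⟨e1, e2⟩ := hbe k h.2 h.1
        exact ⟨S.be k, ⟨by linarith, by linarith, scale_sin (by linarith) (by linarith)⟩,
          fun _ _ => rfl⟩
      · refine ⟨π / 2, ⟨by linarith, by linarith, ?_⟩, fun h1 h2 => absurd ⟨h1, h2⟩ h⟩
        rw [sin_pi_div_two]; norm_num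
    by_cases hv : D.ty k = Ty.v ∨ D.ty k = Ty.h ∨ D.ty k = Ty.g
    · obtain ⟨r0, r1, h1, h2, h3, h4⟩ := hR m hm1 hm2 D k hv
      have hks : k ≠ D.sv := fun h => by
        rw [h, htss] at hv; rcases hv with hv | hv | hv <;> cases hv
      refine ⟨β, r0, r1, hβ1, ⟨h1.le, h2, by linarith⟩, hβ2,
        fun _ => ⟨h1, h4 _ (hal k hks).1⟩, fun t ht => ?_, fun h => absurd hv h⟩
      have := (hep k t ht).1
      rw [this] at hv; rcases hv with hv | hv | hv <;> cases hv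
    · rcases hek : ep k with _ | t
      · by_cases hxp : D.ty k = Ty.xp
        · refine ⟨β, 1 / 2, 1, hβ1, ⟨by norm_num, ?_, by norm_num⟩, hβ2, fun h => absurd h hv,
            fun t ht => by simp at ht, fun _ _ => ⟨le_rfl, le_rfl⟩⟩
          rw [hrgl2 k hxp]; linarith
        · refine ⟨β, 1 / 2, 1, hβ1, ⟨by norm_num, ?_, by norm_num⟩, hβ2, fun h => absurd h hv,
            fun t ht => by simp at ht, fun _ _ => ⟨le_rfl, le_rfl⟩⟩
          linarith [hrgl1 k hv hxp]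
      · obtain ⟨hxp, htt⟩ := hep k t hek
        have hak := hty k (Or.inr (Or.inl hxp))
        obtain ⟨ρ0, p1, p2, p3⟩ := scale_xp hq9 hX hC htop hb1 hρs1 hρs2 S.ts_lo
          (hG.top S.ts) (S.ts_max t) htt hak.1 hak.2.1
        refine ⟨β, ρ0, ρ0 + qi q 1338, hβ1, ⟨p1.le, by rw [hrgl2 k hxp], by linarith⟩, hβ2,
          fun h => absurd h hv, fun t' ht' ρ h1 h2 => ⟨by linarith, by linarith, ?_⟩,
          fun _ h => by simp at h⟩
        obtain rfl : t = t' := by simpa using ht'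
        rw [halsv]
        exact p3 ρ h1 h2
  choose β r0 r1 k1 k2 k3 k4 k5 k6 using hk
  -- (4) the targets
  obtain ⟨tσ, hinj, ht⟩ := hP m hm1 hm2 D θ hG {tg, ts1}
    ((card_insert_le _ _).trans (by simp)) β r0 r1 k1 k2
  set c : D.K → ℝ := fun k => cos (β k) + cos (θ (tσ k)) / sin (θ (tσ k)) * sin (β k) with hc
  have hρ : ∀ k, ∃ ρ ns : ℝ, 0 < ρ ∧ (k = D.hv → ρ = 1) ∧ (k = D.sv → ρ = ρs) ∧
      (k ≠ D.hv → k ≠ D.sv → ep k = none → e0 k = none → 1 / ρ = c k) ∧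
      (∀ t, ep k = some t → ρ = c k ∧ |ns| ≤ qi q 330 ∧
          CP (ρ * cos (S.al k) - ρs * cos (S.al D.sv)) (b - ρ * cos (S.al k))
            (ρs * sin (S.al D.sv)) (ρ * sin (S.al k)) ns (π - θ t)) ∧
      (∀ t, e0 k = some t →
          ρs / ρ = cos (θ (S.tb k)) + cos (θ t) / sin (θ t) * sin (θ (S.tb k))) ∧
      (D.ty k = Ty.xp ∨ D.ty k = Ty.x0 → ρ ≤ (q : ℝ)) ∧
      (isF D k ∨ D.ty k = Ty.h →
          |ρ * cos (S.al k) - D.pos k| ≤ qi q 860 ∧
          |ρ * sin (S.al k) - D.rad k| ≤ qi q 860) ∧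
      (D.ty k = Ty.v → D.lev k = 0 →
          |ρ * cos (S.al k) - 1| ≤ qi q 999 ∧ |ρ * sin (S.al k) - D.rad k| ≤ qi q 999) ∧
      (D.ty k = Ty.g →
          |ρ * cos (S.al k) - D.pos k| ≤ D.pos k / 1000 ∧
          |ρ * sin (S.al k) - D.rad k| ≤ 1 / 500) := by
    intro k
    obtain ⟨-, -, -, -, hr0, hr1⟩ := ht k
    have hr0 : r0 k ≤ c k := hr0
    have hr1 : c k ≤ r1 k := hr1
    by_cases hv : D.ty k = Ty.v ∨ D.ty k = Ty.h ∨ D.ty k = Ty.g
    · obtain ⟨h0, h1⟩ := k4 k hv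
      have hck : 0 < c k := lt_of_lt_of_le h0 hr0
      have h2 := h1 (1 / c k) (by positivity) (by rw [one_div_one_div]; exact hr0)
        (by rw [one_div_one_div]; exact hr1)
      refine ⟨1 / c k, 0, by positivity, fun h => ?_, fun h => ?_,
        fun _ _ _ _ => one_div_one_div _, fun t h => ?_, fun t h => ?_, fun h => ?_, h2.1, h2.2.1,
        h2.2.2⟩
      · rw [h, hths] at hv; rcases hv with hv | hv | hv <;> cases hv
      · rw [h, htss] at hv; rcases hv with hv | hv | hv <;> cases hv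
      · rw [(hep k t h).1] at hv; rcases hv with hv | hv | hv <;> cases hv
      · rw [(he0 k t h).1] at hv; rcases hv with hv | hv | hv <;> cases hv
      · rcases h with h | h <;> rw [h] at hv <;> rcases hv with hv | hv | hv <;> cases hv
    · have hF : ¬ (isF D k ∨ D.ty k = Ty.h) := by
        rintro ((h | h) | h)
        · exact hv (Or.inl h)
        · exact hv (Or.inr (Or.inr h.1))
        · exact hv (Or.inr (Or.inl h))
      have hvv : D.ty k ≠ Ty.v := fun h => hv (Or.inl h)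
      have hvg : D.ty k ≠ Ty.g := fun h => hv (Or.inr (Or.inr h))
      by_cases e1 : k = D.hv
      · refine ⟨1, 0, one_pos, fun _ => rfl, fun h => absurd (e1.symm.trans h) hhs,
          fun h => absurd e1 h, fun t h => ?_, fun t h => ?_, fun _ => by linarith,
          fun h => absurd h hF, fun h => absurd h hvv, fun h => absurd h hvg⟩
        · have := (hep k t h).1
          rw [e1, hths] at this; cases this
        · have := (he0 k t h).1
          rw [e1, hths] at this; cases this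
      by_cases e2 : k = D.sv
      · refine ⟨ρs, 0, hρs0, fun h => absurd h e1, fun _ => rfl,
          fun _ h => absurd e2 h, fun t h => ?_, fun t h => ?_, fun h => ?_,
          fun h => absurd h hF, fun h => absurd h hvv, fun h => absurd h hvg⟩
        · have := (hep k t h).1
          rw [e2, htss] at this; cases this
        · have := (he0 k t h).1
          rw [e2, htss] at this; cases this
        · rw [e2, htss] at h; rcases h with h | h <;> cases h
      rcases hek : ep k with _ | t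
      · rcases h0k : e0 k with _ | t
        · obtain ⟨g1, g2⟩ := k6 k hv hek
          have hck : 1 / 2 ≤ c k := g1.trans hr0
          have hck0 : 0 < c k := by linarith
          refine ⟨1 / c k, 0, by positivity, fun h => absurd h e1, fun h => absurd h e2,
            fun _ _ _ _ => one_div_one_div _, fun t h => by simp at h, fun t h => by simp at h,
            fun _ => ?_, fun h => absurd h hF, fun h => absurd h hvv, fun h => absurd h hvg⟩
          rw [div_le_iff₀ hck0]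
          nlinarith
        · obtain ⟨hx0, htt⟩ := he0 k t h0k
          obtain ⟨-, -, hb1', hb2'⟩ := hty k (Or.inr (Or.inr hx0))
          have hden := scale_cot hq9 htop (hG.pos t) htt hb1' hb2'
          set d : ℝ := cos (θ (S.tb k)) + cos (θ t) / sin (θ t) * sin (θ (S.tb k)) with hd
          have hq1349 : (0 : ℝ) < (q : ℝ) ^ 1349 := pow_pos (by linarith) _
          have hd0 : 0 < d := lt_of_lt_of_le hq1349 hden
          refine ⟨ρs / d, 0, by positivity, fun h => absurd h e1, fun h => absurd h e2,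
            fun _ _ _ h => by simp at h, fun t h => by simp at h, fun t' h => ?_,
            fun _ => ?_, fun h => absurd h hF, fun h => absurd h hvv, fun h => absurd h hvg⟩
          · obtain rfl : t = t' := by simpa using h
            rw [div_div_cancel₀ hρs0.ne']
          · rw [div_le_iff₀ hd0]
            have g1 : (q : ℝ) ^ 1000 ≤ (q : ℝ) ^ 1349 := pow_le_pow_right₀ (by linarith)
              (by norm_num)
            have g2 : (2 : ℝ) * (q : ℝ) ^ 1000 ≤ q * d :=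
              mul_le_mul (by linarith) (g1.trans hden) (pow_nonneg (by linarith) _) (by linarith)
            linarith
      · obtain ⟨g0, g1, ns, g2, g3⟩ := k5 k t hek (c k) hr0 hr1
        refine ⟨c k, ns, g0, fun h => absurd h e1, fun h => absurd h e2,
            fun _ _ h => by simp at h, fun t' h => ?_, fun t' h => ?_,
            fun _ => by linarith, fun h => absurd h hF, fun h => absurd h hvv,
            fun h => absurd h hvg⟩
        · obtain rfl : t = t' := by simpa using h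
          exact ⟨rfl, g2, g3⟩
        · have e3 := (hep k t hek).1
          rw [(he0 k t' h).1] at e3; cases e3
  choose ρ ns w1 w2 w3 w4 w5 w6 w7 w8 w9 w10 using hρ
  have hρsv : ρ D.sv = ρs := w3 D.sv rfl
  set T : D.K → Fin (NN m) := fun k => if k = D.hv then tg else if k = D.sv then ts1 else tσ k
    with hT
  have hT1 : T D.hv = tg := by simp [hT]
  have hT2 : T D.sv = ts1 := by simp [hT, hhs.symm]
  have hT3 : ∀ k, k ≠ D.hv → k ≠ D.sv → T k = tσ k := fun k h1 h2 => by simp [hT, h1, h2]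
  have hX1 : ∀ k, tσ k ≠ tg ∧ tσ k ≠ ts1 := by
    intro k
    have := (ht k).1
    rw [mem_insert, mem_singleton, not_or] at this
    exact this
  have hck : ∀ k, k ≠ D.hv → k ≠ D.sv →
      c k = cos (S.be k) + cos (θ (T k)) / sin (θ (T k)) * sin (S.be k) := by
    intro k h1 h2
    rw [hT3 k h1 h2, ← k3 k h1 h2]
  refine ⟨b, ρ, T, ns, hb1, w1, w2 D.hv rfl, fun k => ?_, fun k k' hkk => ?_, ?_,
    fun k h1 h2 h3 => ?_, fun k t h => ?_, fun k t h => ?_, w7, w8, w9, w10⟩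
  · by_cases h1 : k = D.hv
    · rw [h1, hT1]
      exact ⟨tg3, by linarith, by linarith⟩
    by_cases h2 : k = D.sv
    · rw [h2, hT2]
      exact ⟨ts3, by linarith, by linarith⟩
    rw [hT3 k h1 h2]
    obtain ⟨-, a1, a2, a3, -⟩ := ht k
    exact ⟨a1, by linarith, by linarith⟩
  · by_cases h1 : k = D.hv
    · by_cases h1' : k' = D.hv
      · rw [h1, h1']
      by_cases h2' : k' = D.sv
      · rw [h1, h2', hT1, hT2] at hkk
        exact absurd hkk.symm htgs
      · rw [h1, hT1, hT3 k' h1' h2'] at hkk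
        exact absurd hkk.symm (hX1 k').1
    by_cases h2 : k = D.sv
    · by_cases h1' : k' = D.hv
      · rw [h2, h1', hT1, hT2] at hkk
        exact absurd hkk htgs
      by_cases h2' : k' = D.sv
      · rw [h2, h2']
      · rw [h2, hT2, hT3 k' h1' h2'] at hkk
        exact absurd hkk.symm (hX1 k').2
    · by_cases h1' : k' = D.hv
      · rw [h1', hT1, hT3 k h1 h2] at hkk
        exact absurd hkk (hX1 k).1
      by_cases h2' : k' = D.sv
      · rw [h2', hT2, hT3 k h1 h2] at hkk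
        exact absurd hkk (hX1 k).2
      · rw [hT3 k h1 h2, hT3 k' h1' h2'] at hkk
        exact hinj hkk
  · rw [hT1, hb, one_div_one_div]
  · by_cases h4 : k = D.sv
    · rw [h4, hρsv, hT2, hρs, one_div_one_div]
    · rw [w4 k h1 h4 h2 h3]
      exact hck k h1 h4
  · have h1 : k ≠ D.hv := fun h' => by
      have := (hep k t h).1
      rw [h', hths] at this; cases this
    have h2 : k ≠ D.sv := fun h' => by
      have := (hep k t h).1
      rw [h', htss] at this; cases this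
    obtain ⟨g1, g2, g3⟩ := w5 k t h
    rw [hρsv, ← hck k h1 h2]
    exact ⟨g1, g2, g3⟩
  · rw [hρsv]
    exact w6 k t h

end Pool.Agent.Helper72.RA
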